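import Pool.Agent.K7.H26.SHI.Defs

/-! # Project SHI, job COUNT -/

set_option autoImplicit false

namespace Pool.Agent.K7.H99.SHI

open Pool.Agent.K7.H26.SHI Finset

theorem c5_three : ∀ a : Fin 5, (univ.filter fun b => ¬ C5.Adj a b).card ≤ 3 := by decide

theorem c5_indep : ∀ S : Finset (Fin 5), (∀ a ∈ S, ∀ b ∈ S, ¬ C5.Adj a b) → S.card ≤ 2 := by
  decide

theorem adj_disj {V W : Type} (G : SimpleGraph V) (H : SimpleGraph W) (x y : V × W) :
    (disj G H).Adj x y ↔ G.Adj x.1 y.1 ∨ H.Adj x.2 y.2 := Iff.rfl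

theorem adj_dpow {V : Type} (G : SimpleGraph V) (N : ℕ) (x y : Fin N → V) :
    (dpow G N).Adj x y ↔ ∃ i, G.Adj (x i) (y i) := Iff.rfl

/-- what a homomorphism says about nonadjacent images -/
theorem nonadj_of {J N : ℕ} {W : Type} {H : SimpleGraph W}
    (F : disj (KK J) (dpow C5 N) →g H) {x x' : Fin J × (Fin N → Fin 5)}
    (h : ¬ H.Adj (F x) (F x')) : x.1 = x'.1 ∧ ∀ i, ¬ C5.Adj (x.2 i) (x'.2 i) := by
  have h1 : ¬ (disj (KK J) (dpow C5 N)).Adj x x' := fun h' => h (F.map_adj h')
  rw [adj_disj, adj_dpow] at h1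
  push Not at h1
  refine ⟨?_, h1.2⟩
  by_contra hne
  exact h1.1 hne

theorem count (hB : StBound) : StComb := by
  classical
  rintro J L N ⟨F⟩
  set H := disj (KK L) (dpow (lex C5 (KK mm)) N) with hH
  -- the sets `Y c`
  let Y : Fin L → Finset (Fin N → Fin 5 × Fin mm) := fun c =>
    (univ.filter fun x => (F x).1 = c).image fun x => (F x).2
  have hYmem : ∀ c y, y ∈ Y c → ∃ x, F x = (c, y) := by
    intro c y hy
    obtain ⟨x, hx, hxy⟩ := Finset.mem_image.1 hy
    exact ⟨x, Prod.ext (Finset.mem_filter.1 hx).2 hxy⟩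
  have hnon : ∀ c (y y' : Fin N → Fin 5 × Fin mm),
      ¬ (dpow (lex C5 (KK mm)) N).Adj y y' → ¬ H.Adj (c, y) (c, y') := by
    intro c y y' h h'
    rw [hH, adj_disj] at h'
    rcases h' with h' | h'
    · exact (KK L).loopless.irrefl c h'
    · exact h h'
  -- the size of `Y c`
  have hYc : ∀ c, ((Y c).card : ℝ) ≤ ((2499 / 1000) * mm) ^ N := by
    intro c
    refine hB N (Y c) fun y hy => ?_
    obtain ⟨x, hx⟩ := hYmem c y hy
    have : Nonempty (Fin J × (Fin N → Fin 5)) := ⟨x⟩
    choose! g hg using hYmem c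
    have hmaps : ∀ y' ∈ (Y c).filter fun y' => ¬ (dpow (lex C5 (KK mm)) N).Adj y y',
        (g y').2 ∈ Fintype.piFinset fun i => univ.filter fun b => ¬ C5.Adj (x.2 i) b := by
      intro y' hy'
      rw [Finset.mem_filter] at hy'
      have h1 : ¬ H.Adj (F x) (F (g y')) := by
        rw [hx, hg y' hy'.1]
        exact hnon c y y' hy'.2
      have h2 := nonadj_of F h1
      rw [Fintype.mem_piFinset]
      intro i
      simp only [Finset.mem_filter, Finset.mem_univ, true_and]
      exact h2.2 i
    have hinj : Set.InjOn (fun y' => (g y').2)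
        ((Y c).filter fun y' => ¬ (dpow (lex C5 (KK mm)) N).Adj y y') := by
      intro y' hy' y'' hy'' he
      rw [Finset.mem_coe, Finset.mem_filter] at hy' hy''
      have h1 : ¬ H.Adj (F x) (F (g y')) := by
        rw [hx, hg y' hy'.1]
        exact hnon c y y' hy'.2
      have h2 : ¬ H.Adj (F x) (F (g y'')) := by
        rw [hx, hg y'' hy''.1]
        exact hnon c y y'' hy''.2
      have h3 : g y' = g y'' :=
        Prod.ext ((nonadj_of F h1).1.symm.trans (nonadj_of F h2).1) he
      have h4 := hg y' hy'.1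
      rw [h3, hg y'' hy''.1] at h4
      exact (Prod.mk.inj h4).2.symm
    refine (Finset.card_le_card_of_injOn _ hmaps hinj).trans ?_
    rw [Fintype.card_piFinset]
    refine (Finset.prod_le_pow_card _ _ 3 fun i _ => ?_).trans (by simp)
    convert c5_three (x.2 i)
  -- the fibres of `F`
  have hfib : ∀ a ∈ univ.image F, (univ.filter fun x => F x = a).card ≤ 2 ^ N := by
    intro a _
    by_cases hne : (univ.filter fun x => F x = a).Nonempty
    · obtain ⟨x, hx⟩ := hne
      rw [Finset.mem_filter] at hx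
      have hna : ∀ x' x'', F x' = a → F x'' = a →
          x'.1 = x''.1 ∧ ∀ i, ¬ C5.Adj (x'.2 i) (x''.2 i) := by
        intro x' x'' h' h''
        refine nonadj_of F ?_
        rw [h', h'']
        exact H.loopless.irrefl a
      let S : Fin N → Finset (Fin 5) := fun i => (univ.filter fun x => F x = a).image fun x => x.2 i
      have hS : ∀ i, (S i).card ≤ 2 := by
        intro i
        refine c5_indep (S i) ?_
        intro p hp q hq
        obtain ⟨x', hx', rfl⟩ := Finset.mem_image.1 hp
        obtain ⟨x'', hx'', rfl⟩ := Finset.mem_image.1 hq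
        exact (hna x' x'' (Finset.mem_filter.1 hx').2 (Finset.mem_filter.1 hx'').2).2 i
      have hmaps : ∀ x' ∈ univ.filter fun x => F x = a, x'.2 ∈ Fintype.piFinset S := by
        intro x' hx'
        rw [Fintype.mem_piFinset]
        intro i
        exact Finset.mem_image.2 ⟨x', hx', rfl⟩
      have hinj : Set.InjOn (fun x' : Fin J × (Fin N → Fin 5) => x'.2)
          (univ.filter fun x => F x = a : Finset (Fin J × (Fin N → Fin 5))) := by
        intro x' hx' x'' hx'' he
        rw [Finset.mem_coe, Finset.mem_filter] at hx' hx''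
        exact Prod.ext (hna x' x'' hx'.2 hx''.2).1 he
      refine (Finset.card_le_card_of_injOn _ hmaps hinj).trans ?_
      rw [Fintype.card_piFinset]
      exact (Finset.prod_le_pow_card _ _ 2 fun i _ => hS i).trans (by simp)
    · rw [Finset.not_nonempty_iff_eq_empty.1 hne]
      simp
  have h1 := Finset.card_le_mul_card_image (univ : Finset (Fin J × (Fin N → Fin 5))) (2 ^ N) hfib
  have h2 : (univ.image F).card ≤ ∑ c, (Y c).card := by
    have h3 : univ.image F ⊆ univ.biUnion fun c => (Y c).map ⟨fun y => (c, y), fun y y' h =>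
        (Prod.mk.inj h).2⟩ := by
      intro a ha
      obtain ⟨x, _, rfl⟩ := Finset.mem_image.1 ha
      rw [Finset.mem_biUnion]
      refine ⟨(F x).1, Finset.mem_univ _, ?_⟩
      rw [Finset.mem_map]
      refine ⟨(F x).2, Finset.mem_image.2 ⟨x, ?_, rfl⟩, rfl⟩
      simp
    refine (Finset.card_le_card h3).trans (Finset.card_biUnion_le.trans (le_of_eq ?_))
    refine Finset.sum_congr rfl fun c _ => ?_
    rw [Finset.card_map]
  have h4 : (Finset.univ : Finset (Fin J × (Fin N → Fin 5))).card = J * 5 ^ N := by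
    rw [Finset.card_univ]
    simp
  rw [h4] at h1
  have h5 : (J : ℝ) * 5 ^ N ≤ 2 ^ N * (L * ((2499 / 1000) * mm) ^ N) := by
    calc (J : ℝ) * 5 ^ N = ((J * 5 ^ N : ℕ) : ℝ) := by push_cast; ring
      _ ≤ ((2 ^ N * (univ.image F).card : ℕ) : ℝ) := by exact_mod_cast h1
      _ = 2 ^ N * ((univ.image F).card : ℝ) := by push_cast; ring
      _ ≤ 2 ^ N * ∑ c, ((Y c).card : ℝ) := by
          gcongr
          exact_mod_cast h2
      _ ≤ 2 ^ N * ∑ _c : Fin L, ((2499 / 1000) * (mm : ℝ)) ^ N := by
          gcongr with c _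
          exact hYc c
      _ = 2 ^ N * (L * ((2499 / 1000) * mm) ^ N) := by
          rw [Finset.sum_const, Finset.card_univ, Fintype.card_fin, nsmul_eq_mul]
  have h6 : (J : ℝ) * (5 / 2) ^ N = (J * 5 ^ N) / 2 ^ N := by
    rw [div_pow]
    ring
  rw [h6, div_le_iff₀ (by positivity)]
  linarith

end Pool.Agent.K7.H99.SHI
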